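import Mathlib

/-!
# A Banach space with an extended M-basis which contains `ℓ^∞`: proof

The space is `ℓ^∞ × ℓ^1(Γ)`, where `Γ` is the set of all bounded sequences `w` with `‖w n‖ ≤ n`.
The M-basis consists of the vectors `(e_n, 0)` and `(w, e_w)`.
-/

set_option autoImplicit false

namespace Pool.Agent.Helper324_MB

open scoped ENNReal

section

variable (𝕜 : Type) [RCLike 𝕜]

/-- The space of bounded sequences. -/
abbrev Linf : Type := lp (fun _ : ℕ => 𝕜) ∞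

/-- The sequences of controlled growth. -/
abbrev Gam : Type := {w : Linf 𝕜 // ∀ n : ℕ, ‖w n‖ ≤ n}

/-- The space of absolutely summable families over `Gam`. -/
abbrev Lone : Type := lp (fun _ : Gam 𝕜 => 𝕜) 1

/-- The space. -/
abbrev EE : Type := Linf 𝕜 × Lone 𝕜

open Classical in
/-- The vectors. -/
noncomputable def vec : ℕ ⊕ Gam 𝕜 → EE 𝕜
  | Sum.inl n => (lp.single ∞ n 1, 0)
  | Sum.inr w => (w.1, lp.single 1 w 1)

/-- The functional `y ↦ ∑ w, w n * y w`. -/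
noncomputable def gg (n : ℕ) : Lone 𝕜 →L[𝕜] 𝕜 :=
  (lp.tsumCLM 𝕜 (Gam 𝕜) 𝕜).comp
    (lp.mapCLM 1 (fun w : Gam 𝕜 => (w.1 n) • ContinuousLinearMap.id 𝕜 𝕜) (K := n)
      (Nat.cast_nonneg n) (fun w => by
        refine (norm_smul_le _ _).trans ?_
        rw [ContinuousLinearMap.norm_id, mul_one]
        exact w.2 n))

open Classical in
theorem gg_single (n : ℕ) (w : Gam 𝕜) : gg 𝕜 n (lp.single 1 w 1) = w.1 n := by
  unfold gg
  rw [ContinuousLinearMap.comp_apply, lp.tsumCLM_apply, tsum_eq_single w]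
  · simp
  · intro v hv
    simp [Pi.single_eq_of_ne hv]

/-- The functionals. -/
noncomputable def fct : ℕ ⊕ Gam 𝕜 → (EE 𝕜 →L[𝕜] 𝕜)
  | Sum.inl n => (lp.evalCLM 𝕜 (fun _ : ℕ => 𝕜) ∞ n).comp (ContinuousLinearMap.fst 𝕜 _ _) -
      (gg 𝕜 n).comp (ContinuousLinearMap.snd 𝕜 _ _)
  | Sum.inr w => (lp.evalCLM 𝕜 (fun _ : Gam 𝕜 => 𝕜) 1 w).comp (ContinuousLinearMap.snd 𝕜 _ _)

theorem fct_inl (n : ℕ) (v : EE 𝕜) : fct 𝕜 (Sum.inl n) v = v.1 n - gg 𝕜 n v.2 := rfl

theorem fct_inr (w : Gam 𝕜) (v : EE 𝕜) : fct 𝕜 (Sum.inr w) v = v.2 w := rfl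

theorem one_biorth (i : ℕ ⊕ Gam 𝕜) : fct 𝕜 i (vec 𝕜 i) = 1 := by
  rcases i with n | w
  · rw [fct_inl]
    simp [vec]
  · rw [fct_inr]
    simp [vec]

open Classical in
theorem zero_biorth (i j : ℕ ⊕ Gam 𝕜) (h : i ≠ j) : fct 𝕜 j (vec 𝕜 i) = 0 := by
  rcases j with n | w
  · rw [fct_inl]
    rcases i with m | v
    · have : n ≠ m := fun h' => h (by rw [h'])
      simp [vec, Pi.single_eq_of_ne this]
    · simp only [vec]
      rw [gg_single, sub_self]
  · rw [fct_inr]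
    rcases i with m | v
    · simp [vec]
    · have : w ≠ v := fun h' => h (by rw [h'])
      simp only [vec]
      exact lp.single_apply_ne _ _ _ this

theorem total (v : EE 𝕜) (h : ∀ i, fct 𝕜 i v = 0) : v = 0 := by
  have h2 : v.2 = 0 := by
    ext w
    exact h (Sum.inr w)
  have h1 : v.1 = 0 := by
    ext n
    have := h (Sum.inl n)
    rw [fct_inl, h2, map_zero, sub_zero] at this
    exact this
  exact Prod.ext h1 h2

/-- The closed span of the vectors. -/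
noncomputable def VV : Submodule 𝕜 (EE 𝕜) :=
  (Submodule.span 𝕜 (Set.range (vec 𝕜))).topologicalClosure

theorem vec_mem (i : ℕ ⊕ Gam 𝕜) : vec 𝕜 i ∈ VV 𝕜 :=
  Submodule.le_topologicalClosure _ (Submodule.subset_span ⟨i, rfl⟩)

open Classical in
theorem inl_mem (u : Linf 𝕜) : ((u, 0) : EE 𝕜) ∈ VV 𝕜 := by
  have hcl : IsClosed (VV 𝕜 : Set (EE 𝕜)) := Submodule.isClosed_topologicalClosure _
  -- approximations
  have key : ∀ k : ℕ, 0 < k → ∃ p : EE 𝕜, p ∈ VV 𝕜 ∧ dist (u, 0) p ≤ 1 / k := by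
    intro k hk
    have hk' : (0 : ℝ) < k := by exact_mod_cast hk
    obtain ⟨N, hN⟩ := exists_nat_ge (k * ‖u‖)
    let s : Linf 𝕜 := ∑ n ∈ Finset.range N, u n • lp.single ∞ n (1 : 𝕜)
    have hs : ∀ m, s m = if m < N then u m else 0 := by
      intro m
      simp only [s, lp.coeFn_sum, Finset.sum_apply, lp.coeFn_smul, Pi.smul_apply, smul_eq_mul]
      split_ifs with hm
      · rw [Finset.sum_eq_single m]
        · simp
        · intro b _ hb
          rw [lp.single_apply_ne _ _ _ (Ne.symm hb), mul_zero]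
        · intro h
          exact absurd (Finset.mem_range.2 hm) h
      · refine Finset.sum_eq_zero fun b hb => ?_
        have : m ≠ b := fun h => hm (h ▸ Finset.mem_range.1 hb)
        rw [lp.single_apply_ne _ _ _ this, mul_zero]
    let w : Gam 𝕜 := ⟨(k : 𝕜) • (u - s), fun m => by
      rw [lp.coeFn_smul, Pi.smul_apply, lp.coeFn_sub, Pi.sub_apply, hs]
      split_ifs with hm
      · simp
      · rw [sub_zero, norm_smul, RCLike.norm_natCast]
        have h1 := lp.norm_apply_le_norm ENNReal.top_ne_zero u m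
        have h2 : (N : ℝ) ≤ m := by exact_mod_cast not_lt.1 hm
        have h3 : (k : ℝ) * ‖u m‖ ≤ k * ‖u‖ := mul_le_mul_of_nonneg_left h1 hk'.le
        linarith⟩
    refine ⟨(k : 𝕜)⁻¹ • vec 𝕜 (Sum.inr w) + ∑ n ∈ Finset.range N, u n • vec 𝕜 (Sum.inl n), ?_, ?_⟩
    · exact Submodule.add_mem _ (Submodule.smul_mem _ _ (vec_mem 𝕜 _))
        (Submodule.sum_mem _ fun n _ => Submodule.smul_mem _ _ (vec_mem 𝕜 _))
    · have hk0 : (k : 𝕜) ≠ 0 := by exact_mod_cast hk.ne'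
      have e1 : ((k : 𝕜)⁻¹ • vec 𝕜 (Sum.inr w) + ∑ n ∈ Finset.range N, u n • vec 𝕜 (Sum.inl n)) =
          ((u, (k : 𝕜)⁻¹ • lp.single 1 w 1) : EE 𝕜) := by
        refine Prod.ext ?_ ?_
        · simp only [vec, Prod.fst_add, Prod.smul_fst, Prod.fst_sum]
          change (k : 𝕜)⁻¹ • ((k : 𝕜) • (u - s)) + s = u
          rw [smul_smul, inv_mul_cancel₀ hk0, one_smul, sub_add_cancel]
        · simp only [vec, Prod.snd_add, Prod.smul_snd, Prod.snd_sum]
          simp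
      rw [e1, Prod.dist_eq, dist_self, dist_zero_left, norm_smul, norm_inv, RCLike.norm_natCast,
        lp.norm_single zero_lt_one]
      simp
  rw [← SetLike.mem_coe, ← hcl.closure_eq, Metric.mem_closure_iff]
  intro ε hε
  obtain ⟨k, hk⟩ := exists_nat_one_div_lt hε
  obtain ⟨p, hp1, hp2⟩ := key (k + 1) (Nat.succ_pos k)
  refine ⟨p, hp1, hp2.trans_lt ?_⟩
  push_cast
  exact hk

open Classical in
theorem span_top : VV 𝕜 = ⊤ := by
  have hcl : IsClosed (VV 𝕜 : Set (EE 𝕜)) := Submodule.isClosed_topologicalClosure _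
  have h1 : ∀ w : Gam 𝕜, ((0, lp.single 1 w 1) : EE 𝕜) ∈ VV 𝕜 := by
    intro w
    have h2 := Submodule.sub_mem _ (vec_mem 𝕜 (Sum.inr w)) (inl_mem 𝕜 w.1)
    have e : vec 𝕜 (Sum.inr w) - ((w.1, 0) : EE 𝕜) = ((0, lp.single 1 w 1) : EE 𝕜) := by
      simp [vec]
    rwa [e] at h2
  have h2 : ∀ y : Lone 𝕜, ((0, y) : EE 𝕜) ∈ VV 𝕜 := by
    intro y
    have h3 := (lp.hasSum_single (p := 1) ENNReal.one_ne_top y).map
      (ContinuousLinearMap.inr 𝕜 (Linf 𝕜) (Lone 𝕜)) (ContinuousLinearMap.continuous _)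
    refine hcl.mem_of_tendsto h3 (Filter.Eventually.of_forall fun t => ?_)
    refine Submodule.sum_mem _ fun w _ => ?_
    have e : ((ContinuousLinearMap.inr 𝕜 (Linf 𝕜) (Lone 𝕜)) ∘
        fun i : Gam 𝕜 => lp.single 1 i (y i)) w = y w • ((0, lp.single 1 w 1) : EE 𝕜) := by
      simp only [Function.comp_apply, ContinuousLinearMap.inr_apply, Prod.smul_mk, smul_zero]
      rw [← lp.single_smul, smul_eq_mul, mul_one]
    rw [e]
    exact Submodule.smul_mem _ _ (h1 w)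
  rw [eq_top_iff]
  rintro ⟨u, y⟩ -
  have h4 := Submodule.add_mem _ (inl_mem 𝕜 u) (h2 y)
  simpa using h4

theorem isClosed_range_inl :
    IsClosed (Set.range (ContinuousLinearMap.inl 𝕜 (Linf 𝕜) (Lone 𝕜))) := by
  have e : Set.range (ContinuousLinearMap.inl 𝕜 (Linf 𝕜) (Lone 𝕜)) =
      {p : EE 𝕜 | p.2 = 0} := by
    ext p
    constructor
    · rintro ⟨u, rfl⟩
      rfl
    · intro h
      exact ⟨p.1, Prod.ext rfl (Eq.symm h)⟩
  rw [e]
  exact isClosed_eq continuous_snd continuous_const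

end

end Pool.Agent.Helper324_MB
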