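import Pool.Agent.Helper324_MB.Core

/-!
# `ℓ^∞` has no equivalent locally uniformly convex norm
-/

set_option autoImplicit false

namespace Pool.Agent.Helper324_MB

open scoped ENNReal Topology
open Filter

/-- A seminorm `p` is locally uniformly convex. -/
def LUR {𝕜 : Type} [RCLike 𝕜] {E : Type} [NormedAddCommGroup E] [NormedSpace 𝕜 E]
    (p : Seminorm 𝕜 E) : Prop :=
  ∀ (x : E) (xs : ℕ → E), p x = 1 → (∀ n, p (xs n) = 1) →
    Tendsto (fun n => p (xs n + x)) atTop (𝓝 2) → Tendsto (fun n => p (xs n - x)) atTop (𝓝 0)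

/-- The seminorm `p` is a norm equivalent to the norm of `E`. -/
def EquivNorm {𝕜 : Type} [RCLike 𝕜] {E : Type} [NormedAddCommGroup E] [NormedSpace 𝕜 E]
    (p : Seminorm 𝕜 E) : Prop :=
  ∃ c C : ℝ, 0 < c ∧ 0 < C ∧ ∀ v, c * ‖v‖ ≤ p v ∧ p v ≤ C * ‖v‖

section

variable {𝕜 : Type} [RCLike 𝕜]

/-- The vectors `w` of the unit ball which agree with `x` off `A` and vanish on an infinite subset
of `A`. -/
def FF (A : Set ℕ) (x : Linf 𝕜) : Set (Linf 𝕜) :=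
  {w | (∀ k, ‖w k‖ ≤ 1) ∧ (∀ k, k ∉ A → w k = x k) ∧ {k | k ∈ A ∧ w k = 0}.Infinite}

/-- A state of the construction. -/
structure Stt (𝕜 : Type) [RCLike 𝕜] where
  /-- the free coordinates -/
  A : Set ℕ
  /-- the vector -/
  x : Linf 𝕜
  inf : A.Infinite
  ball : ∀ k, ‖x k‖ ≤ 1
  zero : ∀ k ∈ A, x k = 0

theorem Stt.mem (s : Stt 𝕜) : s.x ∈ FF s.A s.x := by
  refine ⟨s.ball, fun _ _ => rfl, ?_⟩
  convert s.inf using 1
  ext k
  exact ⟨fun h => h.1, fun h => ⟨h, s.zero k h⟩⟩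

theorem p_le {p : Seminorm 𝕜 (Linf 𝕜)} {C : ℝ} (hC : 0 < C) (h : ∀ v, p v ≤ C * ‖v‖)
    {w : Linf 𝕜} (hw : ∀ k, ‖w k‖ ≤ 1) : p w ≤ C := by
  refine (h w).trans ?_
  have h1 : ‖w‖ ≤ 1 := lp.norm_le_of_forall_le zero_le_one hw
  nlinarith

theorem step {p : Seminorm 𝕜 (Linf 𝕜)} {C : ℝ} (hC : 0 < C) (h : ∀ v, p v ≤ C * ‖v‖)
    (s : Stt 𝕜) (N : ℕ) (ε : ℝ) (hε : 0 < ε) : ∃ (t : Stt 𝕜) (b : ℕ), t.A ⊆ s.A ∧
      (∀ k, k ∉ s.A → t.x k = s.x k) ∧ b ∈ s.A ∧ b ∉ t.A ∧ t.x b = 0 ∧ (∀ k ∈ t.A, N < k) ∧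
      ∀ w ∈ FF t.A t.x, p w ≤ p t.x + ε := by
  have hb : BddAbove (p '' FF s.A s.x) := by
    refine ⟨C, ?_⟩
    rintro _ ⟨w, hw, rfl⟩
    exact p_le hC h hw.1
  have hne : (p '' FF s.A s.x).Nonempty := ⟨_, s.x, s.mem, rfl⟩
  obtain ⟨_, ⟨z, hz, rfl⟩, hz2⟩ := exists_lt_of_lt_csSup hne
    (show sSup (p '' FF s.A s.x) - ε < sSup (p '' FF s.A s.x) by linarith)
  obtain ⟨b, hb0⟩ := hz.2.2.nonempty
  have hinf : ({k | k ∈ s.A ∧ z k = 0} \ Set.Iic (max b N)).Infinite :=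
    hz.2.2.sdiff (Set.finite_Iic _)
  refine ⟨⟨{k | k ∈ s.A ∧ z k = 0} \ Set.Iic (max b N), z, hinf, hz.1, fun k hk => hk.1.2⟩, b,
    fun k hk => hk.1.1, hz.2.1, hb0.1, fun hb1 => hb1.2 (Set.mem_Iic.2 (le_max_left _ _)), hb0.2,
    fun k hk => ?_, fun w hw => ?_⟩
  · have h1 := hk.2
    simp only [Set.mem_Iic, not_le] at h1
    exact (le_max_right _ _).trans_lt h1
  · have hmem : w ∈ FF s.A s.x := by
      refine ⟨hw.1, fun k hk => ?_, hw.2.2.mono fun k hk => ⟨hk.1.1.1, hk.2⟩⟩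
      rw [hw.2.1 k fun hk' => hk hk'.1.1]
      exact hz.2.1 k hk
    have h1 := le_csSup hb ⟨w, hmem, rfl⟩
    simp only at hz2 ⊢
    linarith

theorem lower {p : Seminorm 𝕜 (Linf 𝕜)} (s : Stt 𝕜) {ε : ℝ}
    (h : ∀ w ∈ FF s.A s.x, p w ≤ p s.x + ε) : ∀ w ∈ FF s.A s.x, |p w - p s.x| ≤ ε := by
  intro w hw
  have h1 := h w hw
  have h2 : s.x + s.x - w ∈ FF s.A s.x := by
    refine ⟨fun k => ?_, fun k hk => ?_, ?_⟩
    · rw [lp.coeFn_sub, lp.coeFn_add, Pi.sub_apply, Pi.add_apply]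
      by_cases hk : k ∈ s.A
      · rw [s.zero k hk, add_zero, zero_sub, norm_neg]
        exact hw.1 k
      · rw [hw.2.1 k hk, add_sub_cancel_right]
        exact s.ball k
    · rw [lp.coeFn_sub, lp.coeFn_add, Pi.sub_apply, Pi.add_apply, hw.2.1 k hk,
        add_sub_cancel_right]
    · refine hw.2.2.mono fun k hk => ⟨hk.1, ?_⟩
      rw [lp.coeFn_sub, lp.coeFn_add, Pi.sub_apply, Pi.add_apply, s.zero k hk.1, hk.2]
      simp
  have h3 := h _ h2
  have h4 : p (s.x + s.x) ≤ p w + p (s.x + s.x - w) := by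
    have := map_add_le_add p w (s.x + s.x - w)
    rwa [add_sub_cancel] at this
  have h5 : p (s.x + s.x) = 2 * p s.x := by
    rw [← two_smul 𝕜 s.x, map_smul_eq_mul]
    simp
  rw [abs_le]
  constructor <;> linarith

/-- The limit of the construction. -/
theorem construct {p : Seminorm 𝕜 (Linf 𝕜)} {C : ℝ} (hC : 0 < C) (h : ∀ v, p v ≤ C * ‖v‖) :
    ∃ (f : ℕ → Stt 𝕜) (x : Linf 𝕜) (b : ℕ → ℕ), Function.Injective b ∧
      (∀ n m, n ≤ m → b m ∈ (f n).A) ∧ (∀ k, ‖x k‖ ≤ 1) ∧ (∀ n k, k ∉ (f n).A → x k = (f n).x k) ∧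
      (∀ m, x (b m) = 0) ∧
      ∀ n : ℕ, ∀ w ∈ FF (f (n + 1)).A (f (n + 1)).x, |p w - p (f (n + 1)).x| ≤ 1 / ((n : ℝ) + 1) := by
  choose t b h1 h2 h3 h4 h5 h6 h7 using step (p := p) hC h
  have hpos : ∀ n : ℕ, 0 < 1 / ((n : ℝ) + 1) := fun n => by positivity
  let s0 : Stt 𝕜 := ⟨Set.univ, 0, Set.infinite_univ, fun k => by simp, fun k _ => by simp⟩
  let f : ℕ → Stt 𝕜 := fun n => Nat.rec s0 (fun n s => t s n (1 / ((n : ℝ) + 1)) (hpos n)) n
  have hf : ∀ n, f (n + 1) = t (f n) n (1 / ((n : ℝ) + 1)) (hpos n) := fun n => rfl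
  let bb : ℕ → ℕ := fun n => b (f n) n (1 / ((n : ℝ) + 1)) (hpos n)
  have g1 : ∀ n, (f (n + 1)).A ⊆ (f n).A := fun n => h1 _ _ _ _
  have g2 : ∀ n k, k ∉ (f n).A → (f (n + 1)).x k = (f n).x k := fun n => h2 _ _ _ _
  have g3 : ∀ n, bb n ∈ (f n).A := fun n => h3 _ _ _ _
  have g4 : ∀ n, bb n ∉ (f (n + 1)).A := fun n => h4 _ _ _ _
  have g5 : ∀ n, (f (n + 1)).x (bb n) = 0 := fun n => h5 _ _ _ _
  have g6 : ∀ n, ∀ k ∈ (f (n + 1)).A, n < k := fun n => h6 _ _ _ _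
  have g7 : ∀ n, ∀ w ∈ FF (f (n + 1)).A (f (n + 1)).x, p w ≤ p (f (n + 1)).x + 1 / ((n : ℝ) + 1) :=
    fun n => h7 _ _ _ _
  have m1 : ∀ n m, n ≤ m → (f m).A ⊆ (f n).A := fun n m hnm =>
    antitone_nat_of_succ_le (f := fun n => (f n).A) g1 hnm
  have m2 : ∀ n m, n ≤ m → ∀ k, k ∉ (f n).A → (f m).x k = (f n).x k := by
    intro n m hnm k hk
    induction m, hnm using Nat.le_induction with
    | base => rfl
    | succ m hm ih => rw [g2 m k fun h' => hk (m1 n m hm h'), ih]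
  have hself : ∀ k, k ∉ (f (k + 1)).A := fun k hk => lt_irrefl _ (g6 k k hk)
  let x : Linf 𝕜 := ⟨fun k => (f (k + 1)).x k, memℓp_infty ⟨1, by
    rintro _ ⟨k, rfl⟩
    exact (f (k + 1)).ball k⟩⟩
  have hx : ∀ k, x k = (f (k + 1)).x k := fun k => rfl
  have hx2 : ∀ n k, k ∉ (f n).A → x k = (f n).x k := by
    intro n k hk
    rw [hx]
    rcases le_total (k + 1) n with hn | hn
    · exact (m2 _ _ hn k (hself k)).symm
    · exact m2 _ _ hn k hk
  refine ⟨f, x, bb, ?_, fun n m hnm => m1 n m hnm (g3 m), fun k => (f (k + 1)).ball k, hx2,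
    fun m => ?_, fun n => lower _ (g7 n)⟩
  · have key : ∀ m n, m < n → bb m ≠ bb n := by
      intro m n hmn he
      exact g4 m (by rw [he]; exact m1 _ _ hmn (g3 n))
    intro m n he
    rcases lt_trichotomy m n with hlt | heq | hlt
    · exact absurd he (key m n hlt)
    · exact heq
    · exact absurd he.symm (key n m hlt)
  · rw [hx2 (m + 1) (bb m) (g4 m)]
    exact g5 m

open Classical in
/-- The indicator of `{b (2 m) : n ≤ 2 m}`. -/
noncomputable def yy (b : ℕ → ℕ) (n : ℕ) : Linf 𝕜 :=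
  ⟨fun k => if ∃ m, n ≤ 2 * m ∧ b (2 * m) = k then 1 else 0, memℓp_infty ⟨1, by
    rintro _ ⟨k, rfl⟩
    simp only
    split_ifs <;> simp⟩⟩

theorem yy_of {b : ℕ → ℕ} {n k : ℕ} (h : ∃ m, n ≤ 2 * m ∧ b (2 * m) = k) :
    (yy b n : Linf 𝕜) k = 1 := if_pos h

theorem yy_not {b : ℕ → ℕ} {n k : ℕ} (h : ¬ ∃ m, n ≤ 2 * m ∧ b (2 * m) = k) :
    (yy b n : Linf 𝕜) k = 0 := if_neg h

/-- `ℓ^∞` has no equivalent locally uniformly convex norm. -/
theorem not_lur (p : Seminorm 𝕜 (Linf 𝕜)) (hp : EquivNorm p) : ¬ LUR p := by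
  intro hlur
  obtain ⟨c, C, hc, hC, hcC⟩ := hp
  obtain ⟨f, x, b, hb, hbA, hx1, hxf, hxb, happ⟩ := construct hC fun v => (hcC v).2
  -- the perturbations are in the sets
  have hmem : ∀ (n : ℕ) (a : 𝕜), ‖a‖ ≤ 1 → x + a • yy b n ∈ FF (f n).A (f n).x := by
    intro n a ha
    refine ⟨fun k => ?_, fun k hk => ?_, ?_⟩
    · rw [lp.coeFn_add, Pi.add_apply, lp.coeFn_smul, Pi.smul_apply]
      by_cases hk : ∃ m, n ≤ 2 * m ∧ b (2 * m) = k
      · rw [yy_of hk]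
        obtain ⟨m, _, rfl⟩ := hk
        rw [hxb]
        simpa using ha
      · rw [yy_not hk, smul_zero, add_zero]
        exact hx1 k
    · have hk' : ¬ ∃ m, n ≤ 2 * m ∧ b (2 * m) = k := by
        rintro ⟨m, hm, rfl⟩
        exact hk (hbA n _ hm)
      rw [lp.coeFn_add, Pi.add_apply, lp.coeFn_smul, Pi.smul_apply, yy_not hk', smul_zero, add_zero]
      exact hxf n k hk
    · refine Set.infinite_of_injective_forall_mem (f := fun m : ℕ => b (2 * (m + n) + 1)) ?_ ?_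
      · intro m m' hmm
        have := hb hmm
        omega
      · intro m
        refine ⟨hbA n _ (by omega), ?_⟩
        have hk' : ¬ ∃ m', n ≤ 2 * m' ∧ b (2 * m') = b (2 * (m + n) + 1) := by
          rintro ⟨m', _, he⟩
          have := hb he
          omega
        rw [lp.coeFn_add, Pi.add_apply, lp.coeFn_smul, Pi.smul_apply, yy_not hk', hxb]
        simp
  -- the norms are close
  have hclose : ∀ (n : ℕ) (a : 𝕜), ‖a‖ ≤ 1 →
      |p (x + a • yy b (n + 1)) - p x| ≤ 2 * (1 / ((n : ℝ) + 1)) := by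
    intro n a ha
    have e1 := happ n _ (hmem (n + 1) a ha)
    have e2 := happ n _ (hmem (n + 1) 0 (by simp))
    rw [zero_smul, add_zero] at e2
    have e3 := abs_sub_le (p (x + a • yy b (n + 1))) (p (f (n + 1)).x) (p x)
    rw [abs_sub_comm (p (f (n + 1)).x) (p x)] at e3
    linarith
  have hlim0 : Tendsto (fun n : ℕ => 2 * (1 / ((n : ℝ) + 1))) atTop (𝓝 0) := by
    have := tendsto_one_div_add_atTop_nhds_zero_nat (𝕜 := ℝ)
    simpa using this.const_mul 2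
  have hlim : ∀ a : 𝕜, ‖a‖ ≤ 1 →
      Tendsto (fun n => p (x + a • yy b (n + 1))) atTop (𝓝 (p x)) := by
    intro a ha
    rw [tendsto_iff_dist_tendsto_zero]
    exact squeeze_zero (fun _ => dist_nonneg) (fun n => hclose n a ha) hlim0
  -- the perturbations are not small
  have hbig : ∀ n, c ≤ p (yy b n : Linf 𝕜) := by
    intro n
    have e1 := (hcC (yy b n : Linf 𝕜)).1
    have e2 := lp.norm_apply_le_norm ENNReal.top_ne_zero (yy b n : Linf 𝕜) (b (2 * n))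
    rw [yy_of ⟨n, by omega, rfl⟩, norm_one] at e2
    nlinarith
  have hbig2 : ∀ n, c ≤ p (x + (1 : 𝕜) • yy b n) := by
    intro n
    have e1 := (hcC (x + (1 : 𝕜) • yy b n)).1
    have e2 := lp.norm_apply_le_norm ENNReal.top_ne_zero (x + (1 : 𝕜) • yy b n) (b (2 * n))
    rw [lp.coeFn_add, Pi.add_apply, lp.coeFn_smul, Pi.smul_apply, yy_of ⟨n, by omega, rfl⟩, hxb,
      zero_add, one_smul, norm_one] at e2
    nlinarith
  have hone := hlim 1 (by simp)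
  have hrho : c ≤ p x := ge_of_tendsto hone (Eventually.of_forall fun n => hbig2 (n + 1))
  have hrho0 : 0 < p x := lt_of_lt_of_le hc hrho
  simp only [one_smul] at hone hbig2
  set rho : ℝ := p x with hrho_def
  let r : ℕ → ℝ := fun n => p (x + yy b (n + 1))
  have hr0 : ∀ n, 0 < r n := fun n => lt_of_lt_of_le hc (hbig2 (n + 1))
  have hrlim : Tendsto r atTop (𝓝 rho) := hone
  let u : Linf 𝕜 := ((rho⁻¹ : ℝ) : 𝕜) • x
  let v : ℕ → Linf 𝕜 := fun n => (((r n)⁻¹ : ℝ) : 𝕜) • (x + yy b (n + 1))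
  have hu : p u = 1 := by
    simp only [u]
    rw [map_smul_eq_mul, RCLike.norm_ofReal, abs_of_pos (inv_pos.2 hrho0), ← hrho_def,
      inv_mul_cancel₀ hrho0.ne']
  have hv : ∀ n, p (v n) = 1 := by
    intro n
    simp only [v]
    rw [map_smul_eq_mul, RCLike.norm_ofReal, abs_of_pos (inv_pos.2 (hr0 n))]
    exact inv_mul_cancel₀ (hr0 n).ne'
  have hhalf := hlim (1 / 2 : 𝕜) (by
    rw [norm_div, norm_one, RCLike.norm_ofNat]
    norm_num)
  have hsum : Tendsto (fun n => p (v n + u)) atTop (𝓝 2) := by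
    have hlow : Tendsto (fun n => rho⁻¹ * (2 * p (x + (1 / 2 : 𝕜) • yy b (n + 1))) -
        |1 - r n * rho⁻¹|) atTop (𝓝 2) := by
      have e1 : Tendsto (fun n => rho⁻¹ * (2 * p (x + (1 / 2 : 𝕜) • yy b (n + 1)))) atTop
          (𝓝 (rho⁻¹ * (2 * rho))) := (hhalf.const_mul 2).const_mul _
      have e2 : Tendsto (fun n => |1 - r n * rho⁻¹|) atTop (𝓝 |1 - rho * rho⁻¹|) :=
        (tendsto_const_nhds.sub (hrlim.mul_const _)).abs
      have e3 := e1.sub e2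
      rw [mul_inv_cancel₀ hrho0.ne', sub_self, abs_zero, sub_zero] at e3
      have e4 : rho⁻¹ * (2 * rho) = 2 := by
        field_simp
      rwa [e4] at e3
    refine tendsto_of_tendsto_of_tendsto_of_le_of_le hlow tendsto_const_nhds (fun n => ?_)
      (fun n => ?_)
    · simp only
      have e5 : ((rho⁻¹ : ℝ) : 𝕜) • ((2 : 𝕜) • (x + (1 / 2 : 𝕜) • yy b (n + 1))) =
          (v n + u) - (((r n)⁻¹ - rho⁻¹ : ℝ) : 𝕜) • (x + yy b (n + 1)) := by
        simp only [v, u]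
        push_cast
        module
      have e6 : p (((rho⁻¹ : ℝ) : 𝕜) • ((2 : 𝕜) • (x + (1 / 2 : 𝕜) • yy b (n + 1)))) =
          rho⁻¹ * (2 * p (x + (1 / 2 : 𝕜) • yy b (n + 1))) := by
        rw [map_smul_eq_mul, map_smul_eq_mul, RCLike.norm_ofReal, abs_of_pos (inv_pos.2 hrho0),
          RCLike.norm_ofNat]
      have e7 : p ((((r n)⁻¹ - rho⁻¹ : ℝ) : 𝕜) • (x + yy b (n + 1))) = |1 - r n * rho⁻¹| := by
        rw [map_smul_eq_mul, RCLike.norm_ofReal]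
        change |(r n)⁻¹ - rho⁻¹| * r n = _
        rw [← abs_of_pos (hr0 n), ← abs_mul, abs_of_pos (hr0 n), sub_mul,
          inv_mul_cancel₀ (hr0 n).ne', mul_comm]
      have e8 := map_sub_le_add p (v n + u) ((((r n)⁻¹ - rho⁻¹ : ℝ) : 𝕜) • (x + yy b (n + 1)))
      rw [← e5, e6, e7] at e8
      linarith
    · simp only
      have e9 := map_add_le_add p (v n) u
      rw [hu, hv n] at e9
      linarith
  have hdiff := hlur u v hu hv hsum
  have hfin : Tendsto (fun n => rho * p (v n - u) + |r n - rho|) atTop (𝓝 (rho * 0 + |rho - rho|)) :=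
    (hdiff.const_mul rho).add ((hrlim.sub_const rho).abs)
  rw [mul_zero, sub_self, abs_zero, add_zero] at hfin
  have hcle : ∀ n, c ≤ rho * p (v n - u) + |r n - rho| := by
    intro n
    refine (hbig (n + 1)).trans ?_
    have hr1 : ((r n : ℝ) : 𝕜) * (((r n)⁻¹ : ℝ) : 𝕜) = 1 := by
      rw [← RCLike.ofReal_mul, mul_inv_cancel₀ (hr0 n).ne', RCLike.ofReal_one]
    have hr2 : ((rho : ℝ) : 𝕜) * ((rho⁻¹ : ℝ) : 𝕜) = 1 := by
      rw [← RCLike.ofReal_mul, mul_inv_cancel₀ hrho0.ne', RCLike.ofReal_one]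
    have e1 : (yy b (n + 1) : Linf 𝕜) = ((rho : ℝ) : 𝕜) • (v n - u) + ((r n - rho : ℝ) : 𝕜) • v n := by
      have e2 : (yy b (n + 1) : Linf 𝕜) = (((r n : ℝ) : 𝕜) * (((r n)⁻¹ : ℝ) : 𝕜)) •
          (x + yy b (n + 1)) - (((rho : ℝ) : 𝕜) * ((rho⁻¹ : ℝ) : 𝕜)) • x := by
        rw [hr1, hr2, one_smul, one_smul]
        abel
      conv_lhs => rw [e2]
      simp only [v, u]
      push_cast
      module
    conv_lhs => rw [e1]
    refine (map_add_le_add p _ _).trans ?_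
    rw [map_smul_eq_mul, map_smul_eq_mul, RCLike.norm_ofReal, RCLike.norm_ofReal, hv n, mul_one,
      abs_of_pos hrho0]
  have := ge_of_tendsto hfin (Eventually.of_forall hcle)
  linarith

end

end Pool.Agent.Helper324_MB
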